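import Pool.Agent.Y248.FB.Stm
set_option autoImplicit false

/-! # Project FB: kernels of annular pieces and of products of two pieces -/

namespace Pool.Agent.Y210.FB

open MeasureTheory Set Metric Complex Filter
open scoped ENNReal RealInnerProductSpace Topology FourierTransform
open Pool.Agent.H789R2.FR (E)
open Pool.Agent.H438R2.RZ (Bump)
open Pool.Agent.Y248.BA (mu Kr Tp)
open Pool.Agent.Y248.FB

theorem bump_bdd {ψ : ℝ → ℝ} (hψ : Bump ψ) : ∃ M : ℝ, 1 ≤ M ∧ ∀ v, |ψ v| ≤ M := by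
  obtain ⟨M, hM⟩ := (isCompact_Icc (a := (1 / 2 : ℝ)) (b := 2)).exists_bound_of_continuousOn
    hψ.1.continuous.continuousOn
  refine ⟨max M 1, le_max_right _ _, fun v => ?_⟩
  by_cases h : ψ v = 0
  · rw [h, abs_zero]; positivity
  · exact (hM _ (hψ.2 _ h)).trans (le_max_left _ _)

theorem core {n : ℕ} {C : ℝ} (hC : 0 < C)
    (H : ∀ (a : ℝ → ℂ) (r₀ r₁ : ℝ), Measurable a →
      (∀ r, ‖a r‖ ≤ 1) → 1 / 2 ≤ r₀ → r₀ ≤ r₁ → r₁ ≤ 2 → (∀ r, a r ≠ 0 → r₀ ≤ r ∧ r ≤ r₁) →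
      ∀ w : E n, ‖𝓕 (fun ξ : E n => a ‖ξ‖) w‖ ≤ C * (r₁ - r₀) * (1 + ‖w‖) ^ (-kap n))
    {A R N : ℝ} (hA : 4 ≤ A) (hR1 : 1 ≤ R) (hR2 : R ≤ 2) (hN : 0 < N) (b : ℝ → ℝ)
    (hb : Measurable b) (hbN : ∀ r, |b r| ≤ N)
    (hbs : ∀ r, b r ≠ 0 →
      1 / 2 ≤ A * (1 - (R ^ 2)⁻¹ * r ^ 2) ∧ A * (1 - (R ^ 2)⁻¹ * r ^ 2) ≤ 2) (w : E n) :
    ‖𝓕 (fun ξ : E n => ((b ‖ξ‖ : ℝ) : ℂ)) w‖ ≤ C * N * (4 / A) * (1 + ‖w‖) ^ (-kap n) := by
  set a : ℝ → ℂ := fun r => if 0 ≤ r then ((b r / N : ℝ) : ℂ) else 0 with ha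
  have hA0 : 0 < A := by linarith
  have hR0 : 0 < R := by linarith
  have hR20 : 0 < R ^ 2 := by positivity
  have hu0 : 2 / A ≤ 1 / 2 := by
    rw [div_le_div_iff₀ hA0 (by norm_num)]
    linarith
  have hu1 : 0 < 1 / (2 * A) := by positivity
  have hu2 : 1 / (2 * A) ≤ 2 / A := by
    rw [div_le_div_iff₀ (by positivity) hA0]
    linarith
  have hs0 : 1 - 2 / A ≤ √(1 - 2 / A) := by
    apply Real.le_sqrt_of_sq_le
    have h0 : 0 ≤ 2 / A := by positivity
    nlinarith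
  have hs1 : √(1 - 1 / (2 * A)) ≤ 1 := by
    rw [Real.sqrt_le_one]
    linarith
  have hs2 : √(1 - 2 / A) ≤ √(1 - 1 / (2 * A)) := Real.sqrt_le_sqrt (by linarith)
  have hs00 : 0 ≤ √(1 - 2 / A) := Real.sqrt_nonneg _
  have hs10 : 0 ≤ √(1 - 1 / (2 * A)) := Real.sqrt_nonneg _
  have h1 := H a (R * √(1 - 2 / A)) (R * √(1 - 1 / (2 * A)))
    (by
      refine Measurable.ite measurableSet_Ici ?_ measurable_const
      fun_prop)
    (by
      intro r
      rw [ha]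
      beta_reduce
      split_ifs
      · rw [Complex.norm_real, Real.norm_eq_abs, abs_div, abs_of_pos hN, div_le_one hN]
        exact hbN r
      · rw [norm_zero]
        exact zero_le_one)
    (by nlinarith) (mul_le_mul_of_nonneg_left hs2 hR0.le) (by nlinarith)
    (by
      intro r hr
      rw [ha] at hr
      beta_reduce at hr
      by_cases h0 : 0 ≤ r
      · rw [if_pos h0] at hr
        have hbr : b r ≠ 0 := by
          intro h
          apply hr
          rw [h, zero_div, Complex.ofReal_zero]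
        obtain ⟨h2, h3⟩ := hbs r hbr
        set u := (R ^ 2)⁻¹ * r ^ 2 with hu
        have hu' : r ^ 2 = R ^ 2 * u := by
          rw [hu, ← mul_assoc, mul_inv_cancel₀ hR20.ne', one_mul]
        have h4 : 1 - u ≤ 2 / A := by
          rw [le_div_iff₀ hA0]
          linarith
        have h5 : 1 / (2 * A) ≤ 1 - u := by
          rw [div_le_iff₀ (by positivity)]
          linarith
        constructor
        · apply (sq_le_sq₀ (by positivity) h0).1
          rw [mul_pow, Real.sq_sqrt (by linarith), hu']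
          exact mul_le_mul_of_nonneg_left (by linarith) hR20.le
        · apply (sq_le_sq₀ h0 (by positivity)).1
          rw [mul_pow, Real.sq_sqrt (by linarith), hu']
          exact mul_le_mul_of_nonneg_left (by linarith) hR20.le
      · rw [if_neg h0] at hr
        exact absurd rfl hr) w
  have h2 : (fun ξ : E n => ((b ‖ξ‖ : ℝ) : ℂ)) = fun ξ : E n => (N : ℂ) * a ‖ξ‖ := by
    funext ξ
    rw [ha]
    beta_reduce
    rw [if_pos (norm_nonneg ξ), Complex.ofReal_div, mul_div_cancel₀]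
    exact_mod_cast hN.ne'
  have h3 : 𝓕 (fun ξ : E n => ((b ‖ξ‖ : ℝ) : ℂ)) w = (N : ℂ) * 𝓕 (fun ξ : E n => a ‖ξ‖) w := by
    rw [h2, Real.fourier_eq, Real.fourier_eq, ← integral_const_mul]
    refine integral_congr_ae (Eventually.of_forall fun ξ => ?_)
    beta_reduce
    rw [Circle.smul_def, Circle.smul_def, smul_eq_mul, smul_eq_mul]
    ring
  rw [h3, norm_mul, Complex.norm_real, Real.norm_eq_abs, abs_of_pos hN]
  have hP : 0 ≤ (1 + ‖w‖) ^ (-kap n) := by positivity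
  have h4 : R * √(1 - 1 / (2 * A)) - R * √(1 - 2 / A) ≤ 4 / A := by
    have h5 : √(1 - 1 / (2 * A)) - √(1 - 2 / A) ≤ 2 / A := by linarith
    have h6 : 0 ≤ √(1 - 1 / (2 * A)) - √(1 - 2 / A) := by linarith
    calc R * √(1 - 1 / (2 * A)) - R * √(1 - 2 / A)
        = R * (√(1 - 1 / (2 * A)) - √(1 - 2 / A)) := by ring
      _ ≤ 2 * (2 / A) := mul_le_mul hR2 h5 h6 (by norm_num)
      _ = 4 / A := by ring
  calc N * ‖𝓕 (fun ξ : E n => a ‖ξ‖) w‖
      ≤ N * (C * (R * √(1 - 1 / (2 * A)) - R * √(1 - 2 / A)) * (1 + ‖w‖) ^ (-kap n)) :=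
        mul_le_mul_of_nonneg_left h1 hN.le
    _ ≤ N * (C * (4 / A) * (1 + ‖w‖) ^ (-kap n)) := by
        refine mul_le_mul_of_nonneg_left ?_ hN.le
        exact mul_le_mul_of_nonneg_right (mul_le_mul_of_nonneg_left h4 hC.le) hP
    _ = C * N * (4 / A) * (1 + ‖w‖) ^ (-kap n) := by ring

theorem t_kk (n : ℕ) (_hn : 2 ≤ n) : S_RAD n → S_KK n := by
  rintro ⟨C, hC, H⟩ ψ hψ
  obtain ⟨M, hM1, hM⟩ := bump_bdd hψ
  have hM0 : 0 < M := by linarith
  have hψm : Measurable ψ := hψ.1.continuous.measurable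
  refine ⟨C * M ^ 2 * 4, by positivity, ?_⟩
  intro A R R' hA hR1 hR2 hR1' hR2' w
  have hA0 : 0 < A := by linarith
  have hP : 0 ≤ (1 + ‖w‖) ^ (-kap n) := by positivity
  constructor
  · have h1 := core hC H hA hR1 hR2 hM0 (fun r => ψ (A * (1 - (R ^ 2)⁻¹ * r ^ 2)))
      (by fun_prop) (fun r => hM _) (fun r hr => hψ.2 _ hr) w
    refine (le_of_eq ?_).trans (h1.trans ?_)
    · rfl
    · refine mul_le_mul_of_nonneg_right ?_ hP
      have h2 : C * M * (4 / A) = C * M * 4 / A := by ring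
      rw [h2]
      apply div_le_div_of_nonneg_right _ hA0.le
      have : M ≤ M ^ 2 := by nlinarith
      nlinarith
  · have h1 := core hC H hA hR1 hR2 (N := M ^ 2) (by positivity)
      (fun r => ψ (A * (1 - (R ^ 2)⁻¹ * r ^ 2)) * ψ (A * (1 - (R' ^ 2)⁻¹ * r ^ 2)))
      (by fun_prop) (fun r => by
        have e : M ^ 2 = M * M := sq M
        rw [abs_mul, e]
        exact mul_le_mul (hM _) (hM _) (abs_nonneg _) hM0.le)
      (fun r hr => hψ.2 _ (left_ne_zero_of_mul hr)) w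
    refine (le_of_eq ?_).trans (h1.trans (le_of_eq ?_))
    · have e : (fun ξ : E n => mu ψ A R ξ * mu ψ A R' ξ) =
          fun ξ : E n => ((ψ (A * (1 - (R ^ 2)⁻¹ * ‖ξ‖ ^ 2)) *
            ψ (A * (1 - (R' ^ 2)⁻¹ * ‖ξ‖ ^ 2)) : ℝ) : ℂ) := by
        funext ξ
        unfold mu
        rw [← Complex.ofReal_mul]
      rw [e]
    · ring

end Pool.Agent.Y210.FB
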